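import Pool.Agent.W117.GH.Stm

/-! # Project GH: SM, smoothness of solutions of the regular singular problem -/

set_option autoImplicit false

open scoped ContDiff
open MeasureTheory Filter Topology Set

namespace Pool.Agent.W308.GH.SM

/-- the averages `∫_0^1 θ^j u(θ t) dθ` -/
noncomputable def A (u : ℝ → ℝ) (j : ℕ) (t : ℝ) : ℝ := ∫ θ in (0:ℝ)..1, θ ^ j * u (θ * t)

theorem A_cont {u : ℝ → ℝ} (hu : Continuous u) (j : ℕ) : Continuous (A u j) := by
  unfold A
  apply intervalIntegral.continuous_parametric_intervalIntegral_of_continuous'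
  fun_prop

theorem A_deriv {u : ℝ → ℝ} (hu : Differentiable ℝ u) (hu' : Continuous (deriv u)) (j : ℕ)
    (t : ℝ) : HasDerivAt (A u j) (A (deriv u) (j + 1) t) t := by
  have huc : Continuous u := hu.continuous
  obtain ⟨C, hC⟩ := (isCompact_Icc (a := -(|t| + 1)) (b := |t| + 1)).exists_bound_of_continuousOn
    hu'.continuousOn
  have h := intervalIntegral.hasDerivAt_integral_of_dominated_loc_of_deriv_le
    (μ := volume) (F := fun s θ => θ ^ j * u (θ * s))
    (F' := fun s θ => θ ^ (j + 1) * deriv u (θ * s)) (x₀ := t) (a := 0) (b := 1)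
    (bound := fun _ => C) (s := Metric.ball t 1) (Metric.ball_mem_nhds t one_pos)
    (Eventually.of_forall fun s => (by fun_prop : Continuous fun θ => θ ^ j * u (θ * s)).aestronglyMeasurable)
    ((by fun_prop : Continuous fun θ => θ ^ j * u (θ * t)).intervalIntegrable _ _)
    ((by fun_prop : Continuous fun θ => θ ^ (j + 1) * deriv u (θ * t)).aestronglyMeasurable)
    (Eventually.of_forall fun θ hθ s hs => ?_)
    (intervalIntegrable_const) (Eventually.of_forall fun θ hθ s hs => ?_)
  · exact h.2
  · rw [uIoc_of_le zero_le_one] at hθ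
    rw [Metric.mem_ball, Real.dist_eq] at hs
    have h0 : 0 ≤ θ := hθ.1.le
    have h1 : |s| ≤ |t| + 1 := by
      have := abs_sub_abs_le_abs_sub s t
      linarith
    have h2 : |θ * s| ≤ |t| + 1 := by
      rw [abs_mul, abs_of_nonneg h0]
      calc θ * |s| ≤ 1 * |s| := mul_le_mul_of_nonneg_right hθ.2 (abs_nonneg _)
        _ ≤ |t| + 1 := by rw [one_mul]; exact h1
    have h3 := hC (θ * s) (abs_le.mp h2)
    rw [norm_mul, norm_pow, Real.norm_of_nonneg h0]
    have h4 : θ ^ (j + 1) ≤ 1 := pow_le_one₀ h0 hθ.2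
    calc θ ^ (j + 1) * ‖deriv u (θ * s)‖ ≤ 1 * ‖deriv u (θ * s)‖ :=
          mul_le_mul_of_nonneg_right h4 (norm_nonneg _)
      _ ≤ C := by rw [one_mul]; exact h3
  · have h1 : HasDerivAt (fun s => θ * s) θ s := by
      simpa using (hasDerivAt_id s).const_mul θ
    have h2 := ((hu (θ * s)).hasDerivAt.comp s h1).const_mul (θ ^ j)
    refine h2.congr_deriv ?_
    ring

theorem A_contDiff (n : ℕ) : ∀ (u : ℝ → ℝ), ContDiff ℝ n u → ∀ j, ContDiff ℝ n (A u j) := by
  induction n with
  | zero =>
    intro u hu j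
    rw [Nat.cast_zero, contDiff_zero] at hu ⊢
    exact A_cont hu j
  | succ n ih =>
    intro u hu j
    rw [Nat.cast_succ, contDiff_succ_iff_deriv] at hu ⊢
    obtain ⟨h1, _, h3⟩ := hu
    have hd : ∀ t, HasDerivAt (A u j) (A (deriv u) (j + 1) t) t :=
      A_deriv h1 h3.continuous j
    refine ⟨fun t => (hd t).differentiableAt, fun h => absurd h (by simp), ?_⟩
    have he : deriv (A u j) = A (deriv u) (j + 1) := funext fun t => (hd t).deriv
    rw [he]
    exact ih _ h3 _

theorem main : Pool.Agent.W117.GH.PropSM := by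
  intro F hF h0 h hsol
  obtain ⟨hc, hs⟩ := hsol
  set u : ℝ → ℝ := fun x => F x (h x) with hu
  have hFc : Continuous (Function.uncurry F) := hF.continuous
  have huc : Continuous u := hFc.comp (continuous_id.prodMk hc)
  have hs' : h = fun x => h0 + ∫ t in (0:ℝ)..x, A u 0 t := by
    funext x
    rw [hs x]
    simp only [A, pow_zero, one_mul, hu]
  have hd : ∀ x, HasDerivAt h (A u 0 x) x := by
    intro x
    rw [hs']
    have := ((A_cont huc 0).integral_hasStrictDerivAt 0 x).hasDerivAt
    exact this.const_add h0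
  have hder : deriv h = A u 0 := funext fun x => (hd x).deriv
  have key : ∀ n : ℕ, ContDiff ℝ n h := by
    intro n
    induction n with
    | zero =>
      rw [Nat.cast_zero, contDiff_zero]
      exact hc
    | succ n ih =>
      rw [Nat.cast_succ, contDiff_succ_iff_deriv]
      refine ⟨fun x => (hd x).differentiableAt, fun h => absurd h (by simp), ?_⟩
      rw [hder]
      apply A_contDiff
      have hFn : ContDiff ℝ n (Function.uncurry F) := hF.of_le (by exact_mod_cast le_top)
      exact hFn.comp (contDiff_id.prodMk ih)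
  exact contDiff_infty.mpr key

end Pool.Agent.W308.GH.SM
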